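import Pool.Agent.TK.MainTK
import Pool.Agent.TK.SPab
import Pool.Agent.TK.Slant
import Pool.Agent.TK.HPLemma
import Pool.Agent.TK.BothFail
import Pool.Agent.TK.GDPL

/-!
# Tokunaga's problem: red and blue simple polygons with few crossings

Let `E` be a real plane (any real vector space of dimension `2`), and let `R` and `B` be disjoint finite sets of at least
three points each, such that no three points of `R ∪ B` are collinear.  Then there are a simple
polygon with the vertex set `R` and a simple polygon with the vertex set `B` such that every edge of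
either polygon meets the other polygon in at most two points.  All these points are proper crossings
of two edges, and every edge crosses at most two edges of the other polygon.

The proof is the one of the frozen statement `S10357` (folder `Pool/Agent/TK`).
-/

set_option autoImplicit false

namespace Pool.Agent.Results.MP_9af0e8_co.PolygonPair

/-- No three points of the set `P` are collinear. -/
def GeneralPosition {E : Type*} [AddCommGroup E] [Module ℝ E] (P : Set E) : Prop :=
  ∀ p ∈ P, ∀ q ∈ P, ∀ r ∈ P, p ≠ q → p ≠ r → q ≠ r → ¬ Collinear ℝ ({p, q, r} : Set E)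

/-- The edge from the vertex `v i` to the vertex `v (i + 1)` of the closed polygon with the vertices
`v 0, v 1, ..., v (m - 1)`, `v m = v 0`. -/
def edge {E : Type*} [AddCommGroup E] [Module ℝ E] {m : ℕ} (v : ZMod m → E) (i : ZMod m) :
    Set E :=
  segment ℝ (v i) (v (i + 1))

/-- `v 0, v 1, ..., v (m - 1)` are the vertices, in their cyclic order, of a simple polygon with the
vertex set `A`: they are different and are the points of `A`, and a common point of two different
edges is a vertex and an end of both edges. -/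
structure IsPolygonOn {E : Type*} [AddCommGroup E] [Module ℝ E] (A : Set E) {m : ℕ}
    (v : ZMod m → E) : Prop where
  injective : Function.Injective v
  range_eq : Set.range v = A
  simple : ∀ i j, i ≠ j → ∀ z, z ∈ edge v i → z ∈ edge v j →
    (z = v i ∨ z = v (i + 1)) ∧ (z = v j ∨ z = v (j + 1))

/-- Every edge of the polygon `v` meets the polygon `w` in at most two points, meets at most two edges
of `w`, and the common points are interior points of the two edges. -/
def CrossesAtMostTwice {E : Type*} [AddCommGroup E] [Module ℝ E] {m n : ℕ} (v : ZMod m → E)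
    (w : ZMod n → E) : Prop :=
  ∀ i, (edge v i ∩ ⋃ j, edge w j).encard ≤ 2 ∧
    {j | (edge v i ∩ edge w j).Nonempty}.encard ≤ 2 ∧
    ∀ j z, z ∈ edge v i → z ∈ edge w j →
      z ∈ openSegment ℝ (v i) (v (i + 1)) ∧ z ∈ openSegment ℝ (w j) (w (j + 1))

private theorem toZ (m : ℕ) (hm : 1 ≤ m) :
    ∃ e : ZMod m ≃ Fin m, ∀ i, e (i + 1) = finRotate m (e i) := by
  obtain ⟨n, rfl⟩ : ∃ n, m = n + 1 := ⟨m - 1, by omega⟩
  exact ⟨Equiv.refl _, fun i => (finRotate_apply i).symm⟩

private theorem core (R B : Finset (ℝ × ℝ)) (hd : Disjoint R B) (h3R : 3 ≤ R.card)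
    (h3B : 3 ≤ B.card)
    (hgp : ∀ p ∈ R ∪ B, ∀ q ∈ R ∪ B, ∀ r ∈ R ∪ B, p ≠ q → p ≠ r → q ≠ r →
        ¬ Collinear ℝ ({p, q, r} : Set (ℝ × ℝ))) :
    ∃ (f : ZMod R.card → ℝ × ℝ) (g : ZMod B.card → ℝ × ℝ),
      IsPolygonOn (R : Set (ℝ × ℝ)) f ∧ IsPolygonOn (B : Set (ℝ × ℝ)) g ∧
      (∀ i, (edge f i ∩ ⋃ j, edge g j).encard ≤ 2) ∧
      (∀ j, (edge g j ∩ ⋃ i, edge f i).encard ≤ 2) := by
  obtain ⟨f, g, h1, h2, h3, h4, h5, h6, h7, h8⟩ :=
    Pool.Agent.TK.reduction (Pool.Agent.TK.main_of Pool.Agent.TK.sStmt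
    (Pool.Agent.TK.gdpl Pool.Agent.TK.spa Pool.Agent.TK.spb Pool.Agent.TK.slant)
    Pool.Agent.TK.bf Pool.Agent.TK.hp) R B hd h3R h3B hgp
  obtain ⟨e, he⟩ := toZ R.card (by omega)
  obtain ⟨d, hd'⟩ := toZ B.card (by omega)
  have ef : ∀ i, edge (f ∘ e) i = segment ℝ (f (e i)) (f (finRotate R.card (e i))) := fun i => by
    rw [← he i]; rfl
  have eg : ∀ i, edge (g ∘ d) i = segment ℝ (g (d i)) (g (finRotate B.card (d i))) := fun i => by
    rw [← hd' i]; rfl
  have uf : (⋃ i, edge (f ∘ e) i) = ⋃ i : Fin R.card, segment ℝ (f i) (f (finRotate R.card i)) := by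
    simp only [ef]
    exact e.surjective.iUnion_comp (fun i => segment ℝ (f i) (f (finRotate R.card i)))
  have ug : (⋃ i, edge (g ∘ d) i) = ⋃ i : Fin B.card, segment ℝ (g i) (g (finRotate B.card i)) := by
    simp only [eg]
    exact d.surjective.iUnion_comp (fun i => segment ℝ (g i) (g (finRotate B.card i)))
  refine ⟨f ∘ e, g ∘ d, ⟨h1.comp e.injective, ?_, ?_⟩, ⟨h3.comp d.injective, ?_, ?_⟩, ?_, ?_⟩
  · rw [Set.range_comp, e.surjective.range_eq, Set.image_univ, h2]
  · intro i j hij z hz1 hz2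
    rw [ef] at hz1 hz2
    have h9 := h5 (e i) (e j) (fun h => hij (e.injective h)) ⟨hz1, hz2⟩
    simp only [← he] at h9
    exact h9
  · rw [Set.range_comp, d.surjective.range_eq, Set.image_univ, h4]
  · intro i j hij z hz1 hz2
    rw [eg] at hz1 hz2
    have h9 := h6 (d i) (d j) (fun h => hij (d.injective h)) ⟨hz1, hz2⟩
    simp only [← hd'] at h9
    exact h9
  · intro i
    rw [ef, ug]
    exact h7 (e i)
  · intro j
    rw [eg, uf]
    exact h8 (d j)

section plane

variable {E : Type*} [AddCommGroup E] [Module ℝ E]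

/-- A vertex of the other colour is not on an edge. -/
private theorem not_mem_edge {R B : Set E} (hRB : Disjoint R B) (hgp : GeneralPosition (R ∪ B))
    {m : ℕ} (hm : 3 ≤ m) {v : ZMod m → E} (hv : IsPolygonOn R v) (i : ZMod m) {z : E}
    (hz : z ∈ edge v i) : z ∉ B := by
  intro hzB
  have h1 : v i ∈ R := hv.range_eq ▸ Set.mem_range_self i
  have h2 : v (i + 1) ∈ R := hv.range_eq ▸ Set.mem_range_self (i + 1)
  have h3 : v i ≠ v (i + 1) := by
    intro h
    have h4 := hv.injective h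
    have h5 : (1 : ZMod m) = 0 := by
      have h6 : i + 1 - i = i - i := by rw [← h4]
      rw [sub_self, add_sub_cancel_left] at h6
      exact h6
    have h7 : m = 1 := by
      have h8 : ((1 : ℕ) : ZMod m) = 0 := by rw [Nat.cast_one]; exact h5
      rw [ZMod.natCast_eq_zero_iff] at h8
      exact Nat.dvd_one.1 h8
    omega
  have h4 : v i ≠ z := fun h => Set.disjoint_left.1 hRB h1 (h ▸ hzB)
  have h5 : z ≠ v (i + 1) := fun h => Set.disjoint_left.1 hRB h2 (h ▸ hzB)
  exact hgp _ (Or.inl h1) z (Or.inr hzB) _ (Or.inl h2) h4 h3 h5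
    (mem_segment_iff_wbtw.1 hz).collinear

private theorem crosses_of {R B : Set E} (hRB : Disjoint R B) (hgp : GeneralPosition (R ∪ B))
    {m n : ℕ} (hm : 3 ≤ m) (hn : 3 ≤ n) {v : ZMod m → E} (hv : IsPolygonOn R v) {w : ZMod n → E}
    (hw : IsPolygonOn B w) (h : ∀ i, (edge v i ∩ ⋃ j, edge w j).encard ≤ 2) :
    CrossesAtMostTwice v w := by
  classical
  have hgp' : GeneralPosition (B ∪ R) := by rw [Set.union_comm]; exact hgp
  have hvR : ∀ i, v i ∈ R := fun i => hv.range_eq ▸ Set.mem_range_self i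
  have hwB : ∀ i, w i ∈ B := fun i => hw.range_eq ▸ Set.mem_range_self i
  refine fun i => ⟨h i, ?_, ?_⟩
  · refine le_trans (Set.encard_le_encard_of_injOn (f := fun j =>
      if hj : (edge v i ∩ edge w j).Nonempty then hj.some else v i) ?_ ?_) (h i)
    · intro j hj
      have hj' : (edge v i ∩ edge w j).Nonempty := hj
      simp only [dif_pos hj']
      exact ⟨hj'.some_mem.1, Set.mem_iUnion.2 ⟨j, hj'.some_mem.2⟩⟩
    · intro j hj k hk hjk
      have hj' : (edge v i ∩ edge w j).Nonempty := hj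
      have hk' : (edge v i ∩ edge w k).Nonempty := hk
      simp only [dif_pos hj', dif_pos hk'] at hjk
      by_contra hne
      have h1 := hj'.some_mem
      have h2 := hk'.some_mem
      rw [← hjk] at h2
      have h3 := (hw.simple j k hne _ h1.2 h2.2).1
      have h4 : hj'.some ∈ B := by
        rcases h3 with h3 | h3
        · rw [h3]; exact hwB _
        · rw [h3]; exact hwB _
      exact not_mem_edge hRB hgp hm hv i h1.1 h4
  · intro j z hz1 hz2
    have h1 := not_mem_edge hRB hgp hm hv i hz1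
    have h2 := not_mem_edge hRB.symm hgp' hn hw j hz2
    exact ⟨mem_openSegment_of_ne_left_right (fun h => h2 (h ▸ hvR _)) (fun h => h2 (h ▸ hvR _)) hz1,
      mem_openSegment_of_ne_left_right (fun h => h1 (h ▸ hwB _)) (fun h => h1 (h ▸ hwB _)) hz2⟩

end plane

/-- **Tokunaga's problem.** -/
theorem result {E : Type*} [AddCommGroup E] [Module ℝ E] (hE : Module.finrank ℝ E = 2)
    (R B : Set E) (hR : R.Finite) (hB : B.Finite) (hRB : Disjoint R B) (h3R : 3 ≤ R.ncard)
    (h3B : 3 ≤ B.ncard) (hgp : GeneralPosition (R ∪ B)) :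
    ∃ (v : ZMod R.ncard → E) (w : ZMod B.ncard → E), IsPolygonOn R v ∧ IsPolygonOn B w ∧
      CrossesAtMostTwice v w ∧ CrossesAtMostTwice w v := by
  classical
  have : Module.Finite ℝ E := Module.finite_of_finrank_pos (by omega)
  have hE2 : Module.finrank ℝ E = Module.finrank ℝ (ℝ × ℝ) := by
    rw [hE, Module.finrank_prod, Module.finrank_self]
  let φ : E ≃ₗ[ℝ] ℝ × ℝ := LinearEquiv.ofFinrankEq E (ℝ × ℝ) hE2
  set R' : Finset (ℝ × ℝ) := (hR.image φ).toFinset with hR'
  set B' : Finset (ℝ × ℝ) := (hB.image φ).toFinset with hB'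
  have cR : (R' : Set (ℝ × ℝ)) = φ '' R := (hR.image φ).coe_toFinset
  have cB : (B' : Set (ℝ × ℝ)) = φ '' B := (hB.image φ).coe_toFinset
  have nR : R.ncard = R'.card := by
    rw [← Set.ncard_coe_finset, cR, Set.ncard_image_of_injective _ φ.injective]
  have nB : B.ncard = B'.card := by
    rw [← Set.ncard_coe_finset, cB, Set.ncard_image_of_injective _ φ.injective]
  have hseg : ∀ a b z, z ∈ segment ℝ (φ.symm a) (φ.symm b) ↔ φ z ∈ segment ℝ a b := by
    intro a b z
    have h1 := image_segment ℝ (φ.symm.toLinearMap.toAffineMap) a b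
    have h2 : segment ℝ (φ.symm a) (φ.symm b) = φ.symm '' segment ℝ a b := h1.symm
    rw [h2]
    constructor
    · rintro ⟨y, hy, rfl⟩
      rw [LinearEquiv.apply_symm_apply]
      exact hy
    · intro h
      exact ⟨φ z, h, φ.symm_apply_apply z⟩
  have hd : Disjoint R' B' := by
    rw [← Finset.disjoint_coe, cR, cB, Set.disjoint_image_iff φ.injective]
    exact hRB
  have hmem : ∀ p ∈ R' ∪ B', φ.symm p ∈ R ∪ B := by
    intro p hp
    rw [Finset.mem_union, ← Finset.mem_coe, ← Finset.mem_coe, cR, cB] at hp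
    rcases hp with ⟨q, hq, rfl⟩ | ⟨q, hq, rfl⟩
    · rw [LinearEquiv.symm_apply_apply]; exact Or.inl hq
    · rw [LinearEquiv.symm_apply_apply]; exact Or.inr hq
  have hgp2 : ∀ p ∈ R' ∪ B', ∀ q ∈ R' ∪ B', ∀ r ∈ R' ∪ B', p ≠ q → p ≠ r → q ≠ r →
        ¬ Collinear ℝ ({p, q, r} : Set (ℝ × ℝ)) := by
    intro p hp q hq r hr h1 h2 h3 hcol
    refine hgp _ (hmem p hp) _ (hmem q hq) _ (hmem r hr) (fun h => h1 (φ.symm.injective h))
      (fun h => h2 (φ.symm.injective h)) (fun h => h3 (φ.symm.injective h)) ?_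
    rw [collinear_iff_exists_forall_eq_smul_vadd] at hcol ⊢
    obtain ⟨p0, u, hu⟩ := hcol
    refine ⟨φ.symm p0, φ.symm u, ?_⟩
    have key : ∀ y ∈ ({p, q, r} : Set (ℝ × ℝ)), ∃ t : ℝ, φ.symm y = t • φ.symm u +ᵥ φ.symm p0 := by
      intro y hy
      obtain ⟨t, ht⟩ := hu y hy
      refine ⟨t, ?_⟩
      rw [ht, vadd_eq_add, vadd_eq_add, map_add, map_smul]
    rintro y (rfl | rfl | rfl)
    · exact key p (Or.inl rfl)
    · exact key q (Or.inr (Or.inl rfl))
    · exact key r (Or.inr (Or.inr rfl))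
  obtain ⟨f, g, hf, hg, hfg, hgf⟩ := core R' B' hd (nR ▸ h3R) (nB ▸ h3B) hgp2
  have trans : ∀ (A : Set E) (A' : Finset (ℝ × ℝ)) (k : ZMod A'.card → ℝ × ℝ),
      (A' : Set (ℝ × ℝ)) = φ '' A → IsPolygonOn (A' : Set (ℝ × ℝ)) k →
      IsPolygonOn A (fun i => φ.symm (k i)) := by
    intro A A' k hA hk
    refine ⟨fun i j hij => hk.injective (φ.symm.injective hij), ?_, ?_⟩
    · have h1 : Set.range (fun i => φ.symm (k i)) = φ.symm '' Set.range k := by
        rw [← Set.range_comp]; rfl
      rw [h1, hk.range_eq, hA, Set.image_image]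
      simp only [LinearEquiv.symm_apply_apply, Set.image_id']
    · intro i j hij z hz1 hz2
      have h2 := hk.simple i j hij (φ z) ((hseg _ _ _).1 hz1) ((hseg _ _ _).1 hz2)
      have h3 : ∀ a, φ z = a → z = φ.symm a := fun a h => by rw [← h, φ.symm_apply_apply]
      exact ⟨h2.1.imp (h3 _) (h3 _), h2.2.imp (h3 _) (h3 _)⟩
  have count : ∀ (m n : ℕ) (k : ZMod m → ℝ × ℝ) (l : ZMod n → ℝ × ℝ),
      (∀ i, (edge k i ∩ ⋃ j, edge l j).encard ≤ 2) →
      ∀ i, (edge (fun i => φ.symm (k i)) i ∩ ⋃ j, edge (fun i => φ.symm (l i)) j).encard ≤ 2 := by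
    intro m n k l hkl i
    rw [← φ.injective.encard_image]
    refine (Set.encard_le_encard ?_).trans (hkl i)
    rintro y ⟨z, ⟨hz1, hz2⟩, rfl⟩
    rw [Set.mem_iUnion] at hz2
    obtain ⟨j, hj⟩ := hz2
    exact ⟨(hseg _ _ _).1 hz1, Set.mem_iUnion.2 ⟨j, (hseg _ _ _).1 hj⟩⟩
  have hv := trans R R' f cR hf
  have hw := trans B B' g cB hg
  have hgp' : GeneralPosition (B ∪ R) := by rw [Set.union_comm]; exact hgp
  rw [nR, nB]
  exact ⟨_, _, hv, hw,
    crosses_of hRB hgp (nR ▸ h3R) (nB ▸ h3B) hv hw (count _ _ _ _ hfg),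
    crosses_of hRB.symm hgp' (nB ▸ h3B) (nR ▸ h3R) hw hv (count _ _ _ _ hgf)⟩

end Pool.Agent.Results.MP_9af0e8_co.PolygonPair
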